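import Mathlib

namespace Pool.Agent.H.MP_dd6327_al

open Pointwise

structure MV {D : Type} [Ring D] (φ : D → ℝ ≃o ℝ) : Prop where
  mul : ∀ {x y}, x ≠ 0 → y ≠ 0 → φ (x * y) = φ x * φ y
  add : ∀ {x y}, x ≠ 0 → y ≠ 0 → x + y ≠ 0 → ∀ p, min (φ x p) (φ y p) ≤ φ (x + y) p
  tr : ∀ {p q p' q' : ℝ}, p < q → p' < q' → ∃ x, x ≠ 0 ∧ φ x p = p' ∧ φ x q = q'

open nonZeroDivisors in
theorem MV.ext {R : Type} [Ring R] [IsDomain R] {f : R → ℝ ≃o ℝ} (h : MV f)
    (ore : ∀ a b : R, b ≠ 0 → ∃ x y, x ≠ 0 ∧ x * a = y * b) :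
    ∃ (D : Type) (_ : DivisionRing D) (φ : D → ℝ ≃o ℝ), MV φ := by
  obtain ⟨_⟩ : Nonempty (OreLocalization.OreSet R⁰) :=
    OreLocalization.nonempty_oreSet_iff_of_noZeroDivisors.2 fun r s => by
      obtain ⟨x, y, h1, h2⟩ := ore r s (nonZeroDivisors.coe_ne_zero s)
      exact ⟨y, ⟨x, mem_nonZeroDivisors_of_ne_zero h1⟩, h2⟩
  obtain ⟨D, _, ι, hι, fr⟩ : ∃ (D : Type) (_ : DivisionRing D) (ι : R →+* D),
      Function.Injective ι ∧ ∀ d, ∃ s r, s ≠ 0 ∧ ι s * d = ι r := by
    refine ⟨OreLocalization R⁰ R, inferInstance, OreLocalization.numeratorRingHom,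
      OreLocalization.numeratorHom_inj fun _ h => h.1, fun d => ?_⟩
    induction d using OreLocalization.ind with
    | _ r s => exact ⟨s, r, nonZeroDivisors.coe_ne_zero s, OreLocalization.mul_cancel⟩
  have nz : ∀ {d s r}, d ≠ 0 → s ≠ 0 → ι s * d = ι r → r ≠ 0 := fun hd hs e hr => by
    rw [hr, map_zero] at e
    exact mul_ne_zero ((map_ne_zero_iff ι hι).2 hs) hd e
  choose s r hs hr using fr
  have wd : ∀ {d s' r'}, d ≠ 0 → s' ≠ 0 → ι s' * d = ι r' →
      (f (s d))⁻¹ * f (r d) = (f s')⁻¹ * f r' := fun {d s' r'} hd h1 h2 => by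
    obtain ⟨x, y, h3, h4⟩ := ore (s d) s' h1
    have h5 : y ≠ 0 := by rintro rfl; simp [h3, hs] at h4
    have h6 : x * r d = y * r' := hι (by
      rw [map_mul, map_mul, ← hr, ← h2, ← mul_assoc, ← map_mul, h4, map_mul, mul_assoc])
    have e1 := congrArg f h4
    have e2 := congrArg f h6
    rw [h.mul h3 (hs d), h.mul h5 h1] at e1
    rw [h.mul h3 (nz hd (hs d) (hr d)), h.mul h5 (nz hd h1 h2)] at e2
    rw [eq_inv_mul_of_mul_eq e1, eq_inv_mul_of_mul_eq e2]
    group
  refine ⟨D, inferInstance, fun d => (f (s d))⁻¹ * f (r d), fun {x y} hx hy => ?_,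
    fun {x y} hx hy hxy p => ?_, fun h1 h2 => ?_⟩
  · obtain ⟨u, v, h3, h4⟩ := ore (r x) (s y) (hs y)
    have h5 : v ≠ 0 := by rintro rfl; simp [h3, nz hx (hs x) (hr x)] at h4
    have e1 := congrArg f h4
    rw [h.mul h3 (nz hx (hs x) (hr x)), h.mul h5 (hs y)] at e1
    rw [wd (s' := u * s x) (r' := v * r y) (mul_ne_zero hx hy) (mul_ne_zero h3 (hs x)) (by
      rw [map_mul, mul_assoc, ← mul_assoc _ x, hr, ← mul_assoc, ← map_mul, h4, map_mul, mul_assoc,
        hr, map_mul]), h.mul h3 (hs x), h.mul h5 (nz hy (hs y) (hr y)), eq_inv_mul_of_mul_eq e1]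
    group
  · have h0 := mul_ne_zero (hs (ι (s x) * y)) (hs x)
    have e1 : ι (s (ι (s x) * y) * s x) * x = ι (s (ι (s x) * y) * r x) := by
      rw [map_mul, mul_assoc, hr, map_mul]
    have e2 : ι (s (ι (s x) * y) * s x) * y = ι (r (ι (s x) * y)) := by
      rw [map_mul, mul_assoc, hr]
    have e3 := (mul_add _ _ _).trans ((congrArg₂ (· + ·) e1 e2).trans (map_add ι _ _).symm)
    rw [wd hx h0 e1, wd hy h0 e2, wd hxy h0 e3]
    have := (f (s (ι (s x) * y) * s x))⁻¹.monotone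
      (h.add (nz hx h0 e1) (nz hy h0 e2) (nz hxy h0 e3) p)
    rwa [(f (s (ι (s x) * y) * s x))⁻¹.monotone.map_min] at this
  · obtain ⟨x, hx, h3⟩ := h.tr h1 h2
    have h4 : f 1 = 1 := by simpa using (h.mul one_ne_zero one_ne_zero).symm
    refine ⟨ι x, (map_ne_zero_iff ι hι).2 hx, ?_⟩
    rw [wd (s' := 1) (r' := x) ((map_ne_zero_iff ι hι).2 hx) one_ne_zero (by simp), h4]
    simpa using h3

lemma fol (Y : Finset ℝ) : ∃ B : Finset ℝ, B.Nonempty ∧ 5 * (B + Y).card ≤ 7 * B.card := by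
  classical
  by_contra! h
  have hY : Y.Nonempty := by
    by_contra h'
    simpa [Finset.not_nonempty_iff_eq_empty.1 h'] using h {0} (by simp)
  have h1 : ∀ n : ℕ, ((7 : ℝ) / 5) ^ n ≤ (n • Y).card := fun n => by
    induction n with
    | zero => simp
    | succ n ih =>
      have : (7 : ℝ) * (n • Y).card < 5 * (n • Y + Y).card := by exact_mod_cast h _ (hY.nsmul)
      rw [succ_nsmul, pow_succ]
      linarith
  have h2 : ∀ n : ℕ, ∀ x ∈ n • Y, ∃ c : Y → ℕ, (∀ y, c y ≤ n) ∧ ∑ y, c y • y.1 = x := fun n => by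
    induction n with
    | zero => exact fun x hx => ⟨0, by simp, by simpa [eq_comm] using hx⟩
    | succ n ih =>
      intro x hx
      rw [succ_nsmul] at hx
      obtain ⟨a, ha, b, hb, rfl⟩ := Finset.mem_add.1 hx
      obtain ⟨c, h3, rfl⟩ := ih a ha
      refine ⟨c + Pi.single ⟨b, hb⟩ 1, fun y => add_le_add (h3 y) ?_, ?_⟩
      · rw [Pi.single_apply]; split_ifs <;> simp
      · simp [add_mul, Finset.sum_add_distrib, Pi.single_apply]
  have h3 : ∀ n : ℕ, (n • Y).card ≤ (n + 1) ^ Y.card := fun n => by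
    have : n • Y ⊆ (Fintype.piFinset fun _ : Y => Finset.range (n + 1)).image
        fun c => ∑ y, c y • y.1 := fun x hx => by
      obtain ⟨c, h3, h4⟩ := h2 n x hx
      exact Finset.mem_image.2 ⟨c, by simpa [Nat.lt_succ_iff] using h3, h4⟩
    simpa using (Finset.card_le_card this).trans Finset.card_image_le
  obtain ⟨n, hn⟩ := (((tendsto_pow_const_div_const_pow_of_one_lt Y.card
    (show (1 : ℝ) < 7 / 5 by norm_num)).comp (Filter.tendsto_add_atTop_nat 1)).eventually
    (gt_mem_nhds (show (0 : ℝ) < 5 / 7 by norm_num))).exists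
  simp only [Function.comp_apply] at hn
  rw [div_lt_iff₀ (by positivity), pow_succ] at hn
  have h4 : ((n • Y).card : ℝ) ≤ ((n + 1 : ℕ) : ℝ) ^ Y.card := by exact_mod_cast h3 n
  linarith [h1 n]

@[ext] structure G where
  a : ℝ
  b : ℝ

noncomputable instance : Monoid G where
  mul g h := ⟨g.a + h.a, g.b + Real.exp g.a * h.b⟩
  one := ⟨0, 0⟩
  mul_assoc g h k := G.ext (add_assoc _ _ _) (by
    show g.b + Real.exp g.a * h.b + Real.exp (g.a + h.a) * k.b =
      g.b + Real.exp g.a * (h.b + Real.exp h.a * k.b)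
    rw [Real.exp_add]; ring)
  one_mul g := G.ext (zero_add _) (by show 0 + Real.exp 0 * g.b = g.b; simp)
  mul_one g := G.ext (add_zero _) (by show g.b + Real.exp g.a * 0 = g.b; simp)

noncomputable def G.act (g : G) (r : ℝ) : ℝ := g.b + Real.exp g.a * r

lemma act_mul (g h : G) (r : ℝ) : (g * h).act r = g.act (h.act r) := by
  show g.b + Real.exp g.a * h.b + Real.exp (g.a + h.a) * r =
    g.b + Real.exp g.a * (h.b + Real.exp h.a * r)
  rw [Real.exp_add]; ring

lemma act_mono (g : G) : StrictMono g.act := fun x y h => by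
  unfold G.act; nlinarith [Real.exp_pos g.a]

lemma act_ext {g h : G} {p q : ℝ} (hpq : p < q) (h1 : g.act p = h.act p) (h2 : g.act q = h.act q) :
    g = h := by
  unfold G.act at h1 h2
  have : Real.exp g.a = Real.exp h.a := mul_right_cancel₀ (sub_pos.2 hpq).ne' (by linarith)
  exact G.ext (Real.exp_injective this) (by rw [this] at h1; linarith)

abbrev R := MonoidAlgebra (ZMod 2) G

lemma ore (a b : R) : ∃ x y : R, (x ≠ 0 ∨ y ≠ 0) ∧ x * a = y * b := by
  classical
  set X := a.coeff.support ∪ b.coeff.support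
  obtain ⟨L, hL, h1⟩ := fol (X.image G.a)
  obtain ⟨B, hB, h2⟩ := fol (L.image Real.exp * X.image G.b)
  set L' := L + X.image G.a
  set B' := B + L.image Real.exp * X.image G.b
  let e : (L × B → ZMod 2) →ₗ[ZMod 2] R :=
    Fintype.linearCombination _ fun p => .single ⟨p.1, p.2⟩ 1
  have he : ∀ u (p : L × B), (e u).coeff ⟨p.1, p.2⟩ = u p := fun u p => by
    simp only [e, Fintype.linearCombination_apply, MonoidAlgebra.coeff_sum, Finsupp.coe_finsetSum,
      Finset.sum_apply]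
    rw [Finset.sum_eq_single p (fun q _ hq => ?_) (by simp)]
    · simp
    · have : (⟨q.1, q.2⟩ : G) ≠ ⟨p.1, p.2⟩ := fun h => hq (Prod.ext
        (Subtype.ext (congrArg G.a h)) (Subtype.ext (congrArg G.b h)))
      simp [this]
  have hs : ∀ u (c : R), c.coeff.support ⊆ X → ∀ g : G, (e u * c).coeff g ≠ 0 →
      g.a ∈ L' ∧ g.b ∈ B' := fun u c hc g hg => by
    obtain ⟨k, hk, h, hh, rfl⟩ := Finset.mem_mul.1
      (MonoidAlgebra.support_coeff_mul_subset _ _ (Finsupp.mem_support_iff.2 hg))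
    have : k.a ∈ L ∧ k.b ∈ B := by
      by_contra h3
      refine Finsupp.mem_support_iff.1 hk ?_
      simp only [e, Fintype.linearCombination_apply, MonoidAlgebra.coeff_sum,
        Finsupp.coe_finsetSum, Finset.sum_apply]
      refine Finset.sum_eq_zero fun q _ => ?_
      have : (⟨q.1, q.2⟩ : G) ≠ k := by rintro rfl; exact h3 ⟨q.1.2, q.2.2⟩
      simp [this]
    exact ⟨Finset.add_mem_add this.1 (Finset.mem_image_of_mem _ (hc hh)), Finset.add_mem_add this.2
      (Finset.mul_mem_mul (Finset.mem_image_of_mem _ this.1) (Finset.mem_image_of_mem _ (hc hh)))⟩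
  let ρ : R →ₗ[ZMod 2] (L' × B' → ZMod 2) := LinearMap.pi fun p =>
    Finsupp.lapply ⟨p.1, p.2⟩ ∘ₗ (MonoidAlgebra.coeffLinearEquiv (ZMod 2)).toLinearMap
  obtain ⟨⟨u, v⟩, h3, h4⟩ := (Submodule.ne_bot_iff _).1 (LinearMap.ker_ne_bot_of_finrank_lt
    (f := ρ ∘ₗ (LinearMap.mulRight _ a ∘ₗ e).coprod (-(LinearMap.mulRight _ b ∘ₗ e))) (by
      have := hL.card_pos
      have := hB.card_pos
      have := Nat.mul_le_mul h1 h2
      simp only [Module.finrank_prod, Module.finrank_fintype_fun_eq_card, Fintype.card_prod,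
        Fintype.card_coe]
      nlinarith [Nat.mul_pos hL.card_pos hB.card_pos]))
  refine ⟨e u, e v, ?_, ?_⟩
  · by_contra! h5
    exact h4 (Prod.ext (funext fun p => by simp [← he u, h5.1])
      (funext fun p => by simp [← he v, h5.2]))
  · ext g
    by_cases hg : g.a ∈ L' ∧ g.b ∈ B'
    · exact sub_eq_zero.1 (by
        simpa [ρ, sub_eq_add_neg] using congrFun h3 (⟨_, hg.1⟩, ⟨_, hg.2⟩))
    · rw [not_not.1 fun h => hg (hs u a Finset.subset_union_left g h),
        not_not.1 fun h => hg (hs v b Finset.subset_union_right g h)]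

noncomputable def ph (x : R) (r : ℝ) : ℝ := sInf ((fun g : G => g.act r) '' x.coeff.support)

lemma ph_eq {x : R} {r : ℝ} {g : G} (h1 : g ∈ x.coeff.support)
    (h2 : ∀ h ∈ x.coeff.support, g.act r ≤ h.act r) : ph x r = g.act r :=
  IsLeast.csInf_eq ⟨⟨g, h1, rfl⟩, by rintro _ ⟨h, hh, rfl⟩; exact h2 h hh⟩

lemma ex_min {x : R} (hx : x ≠ 0) (p q : ℝ) : ∃ g ∈ x.coeff.support, ph x p = g.act p ∧
    ∀ h ∈ x.coeff.support, g.act p ≤ h.act p ∧ (g.act p = h.act p → g.act q ≤ h.act q) := by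
  obtain ⟨g, h1, h2⟩ := x.coeff.support.exists_min_image (fun g : G => toLex (g.act p, g.act q))
    (by simpa using hx)
  simp only [Prod.Lex.toLex_le_toLex] at h2
  have : ∀ h ∈ x.coeff.support, g.act p ≤ h.act p ∧ (g.act p = h.act p → g.act q ≤ h.act q) :=
    fun h hh => (h2 h hh).elim (fun k => ⟨k.le, fun e => absurd e k.ne⟩) fun k => ⟨k.1.le, fun _ => k.2⟩
  exact ⟨g, h1, ph_eq h1 fun h hh => (this h hh).1, this⟩

lemma ph_mul {x y : R} (hx : x ≠ 0) (hy : y ≠ 0) (p : ℝ) :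
    x * y ≠ 0 ∧ ph (x * y) p = ph x (ph y p) := by
  classical
  obtain ⟨h, h1, h2, h3⟩ := ex_min hy p (p + 1)
  obtain ⟨g, g1, g2, g3⟩ := ex_min hx (h.act p) (h.act (p + 1))
  have le : ∀ g' ∈ x.coeff.support, ∀ h' ∈ y.coeff.support, (g * h).act p ≤ (g' * h').act p :=
    fun g' hg h' hh => by
      rw [act_mul, act_mul]
      exact (g3 g' hg).1.trans ((act_mono g').monotone (h3 h' hh).1)
  have u : UniqueMul x.coeff.support y.coeff.support g h := fun g' h' hg hh e => by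
    have e1 := congrArg (G.act · p) e
    have e2 := congrArg (G.act · (p + 1)) e
    simp only [act_mul] at e1 e2
    have a1 : h.act p = h'.act p := (act_mono g').injective
      (le_antisymm ((act_mono g').monotone (h3 h' hh).1) (e1 ▸ (g3 g' hg).1))
    have a2 := (g3 g' hg).2 (by rw [← e1, a1])
    have a3 := (h3 h' hh).2 a1
    have a4 : h.act (p + 1) = h'.act (p + 1) := (act_mono g').injective
      (le_antisymm ((act_mono g').monotone a3) (e2 ▸ a2))
    obtain rfl := act_ext (lt_add_one p) a1 a4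
    exact ⟨act_ext (act_mono h (lt_add_one p)) e1 e2, rfl⟩
  have m : g * h ∈ (x * y).coeff.support := by
    rw [Finsupp.mem_support_iff, MonoidAlgebra.coeff_mul_mul_of_uniqueMul u]
    exact mul_ne_zero (Finsupp.mem_support_iff.1 g1) (Finsupp.mem_support_iff.1 h1)
  refine ⟨fun h0 => by simp [h0] at m, ?_⟩
  rw [ph_eq m fun k hk => ?_, act_mul, h2, g2]
  obtain ⟨g', hg, h', hh, rfl⟩ := Finset.mem_mul.1 (MonoidAlgebra.support_coeff_mul_subset _ _ hk)
  exact le g' hg h' hh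

instance : NoZeroDivisors R :=
  ⟨fun {a b} h => by by_contra! k; exact (ph_mul k.1 k.2 0).1 h⟩

instance : IsDomain R := NoZeroDivisors.to_isDomain _

lemma ph_mono {x : R} (hx : x ≠ 0) : StrictMono (ph x) := fun p q h => by
  obtain ⟨g, g1, g2, g3⟩ := ex_min hx p p
  obtain ⟨k, k1, k2, -⟩ := ex_min hx q q
  rw [g2, k2]
  exact (g3 k k1).1.trans_lt (act_mono k h)

lemma ph_surj {x : R} (hx : x ≠ 0) : Function.Surjective (ph x) := fun s => by
  have e : ∀ g : G, g.act ((s - g.b) / Real.exp g.a) = s := fun g => by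
    unfold G.act; field_simp; ring
  obtain ⟨g, h1, h2⟩ := x.coeff.support.exists_max_image (fun g : G => (s - g.b) / Real.exp g.a)
    (by simpa using hx)
  refine ⟨_, (ph_eq h1 fun h hh => ?_).trans (e g)⟩
  rw [e g]
  exact (e h).symm.trans_le ((act_mono h).monotone (h2 h hh))

open Classical in
noncomputable def Ph (x : R) : ℝ ≃o ℝ :=
  if h : x = 0 then 1 else (ph_mono h).orderIsoOfSurjective _ (ph_surj h)

lemma Ph_eq {x : R} (hx : x ≠ 0) (p : ℝ) : Ph x p = ph x p := by simp [Ph, hx]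

lemma mvR : MV Ph where
  mul hx hy := by
    ext p
    rw [RelIso.mul_apply, Ph_eq (mul_ne_zero hx hy), Ph_eq hx, Ph_eq hy, (ph_mul hx hy p).2]
  add {x y} hx hy hxy p := by
    classical
    obtain ⟨g, g1, g2, g3⟩ := ex_min hx p p
    obtain ⟨h, h1, h2, h3⟩ := ex_min hy p p
    obtain ⟨k, k1, k2, -⟩ := ex_min hxy p p
    rw [Ph_eq hx, Ph_eq hy, Ph_eq hxy, g2, h2, k2]
    rcases Finset.mem_union.1 (Finsupp.support_add k1) with h | h
    exacts [min_le_of_left_le (g3 k h).1, min_le_of_right_le (h3 k h).1]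
  tr {p q p' q'} h1 h2 := by
    have h3 : 0 < (q' - p') / (q - p) := div_pos (sub_pos.2 h2) (sub_pos.2 h1)
    let g : G := ⟨Real.log ((q' - p') / (q - p)), p' - (q' - p') / (q - p) * p⟩
    have h4 : (MonoidAlgebra.single g 1 : R) ≠ 0 := by simp
    have h5 : ∀ r, Ph (.single g 1) r = g.act r := fun r => by
      rw [Ph_eq h4, ph_eq (g := g) (by simp) (by simp)]
    refine ⟨_, h4, ?_, ?_⟩ <;> simp only [h5, G.act, g, Real.exp_log h3]
    · ring
    · have := (sub_pos.2 h1).ne'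
      field_simp; ring

theorem exD : ∃ (D : Type) (_ : DivisionRing D) (φ : D → ℝ ≃o ℝ), MV φ :=
  mvR.ext fun a b hb => by
    obtain ⟨x, y, h1, h2⟩ := ore a b
    refine ⟨x, y, ?_, h2⟩
    rintro rfl
    simp [h1.resolve_left (by simp), hb, eq_comm] at h2

end Pool.Agent.H.MP_dd6327_al
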