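import Pool.Agent.H.MP_dd6327_al.A

namespace Pool.Agent.H.MP_dd6327_al

variable {D : Type} [DivisionRing D] {φ : D → ℝ ≃o ℝ}

lemma MV.one (h : MV φ) : φ 1 = 1 := by simpa using (h.mul one_ne_zero one_ne_zero).symm

lemma MV.ap (h : MV φ) {x y : D} (hx : x ≠ 0) (hy : y ≠ 0) (p : ℝ) : φ (x * y) p = φ x (φ y p) := by
  rw [h.mul hx hy]; rfl

lemma MV.neg (h : MV φ) {x : D} (hx : x ≠ 0) (p : ℝ) : φ (-x) p = φ x p := by
  have h0 : (-1 : D) ≠ 0 := by simp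
  have h1 : ∀ p, φ (-1) (φ (-1) p) = p := fun p => by rw [← h.ap h0 h0]; simp [h.one]
  have h2 : φ (-1) p = p := by
    rcases lt_trichotomy (φ (-1) p) p with k | k | k
    · have := (φ (-1)).strictMono k; rw [h1] at this; exact absurd this k.not_gt
    · exact k
    · have := (φ (-1)).strictMono k; rw [h1] at this; exact absurd this k.not_gt
  rw [← mul_neg_one, h.ap hx h0, h2]

lemma MV.inv (h : MV φ) {x : D} (hx : x ≠ 0) (p : ℝ) : φ x⁻¹ p = (φ x).symm p := by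
  rw [eq_comm, OrderIso.symm_apply_eq, ← h.ap hx (inv_ne_zero hx), mul_inv_cancel₀ hx, h.one]; rfl

def MV.A (h : MV φ) (p q : ℝ) : AddSubgroup D where
  carrier := {x | x ≠ 0 → q < φ x p}
  zero_mem' k := absurd rfl k
  add_mem' {x y} hx hy k := by
    by_cases h1 : x = 0
    · subst h1; rw [zero_add] at k ⊢; exact hy k
    by_cases h2 : y = 0
    · subst h2; rw [add_zero]; exact hx h1
    exact (lt_min (hx h1) (hy h2)).trans_le (h.add h1 h2 k p)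
  neg_mem' {x} hx k := by
    rw [h.neg (neg_ne_zero.1 k)]; exact hx (neg_ne_zero.1 k)

lemma MV.mulA (h : MV φ) {p q r s : ℝ} {x y : D} (hx : x ∈ h.A r s) (hy : y ≠ 0 → r ≤ φ y p)
    (hq : q ≤ s) : x * y ∈ h.A p q := fun k => by
  rw [h.ap (left_ne_zero_of_mul k) (right_ne_zero_of_mul k)]
  exact hq.trans_lt ((hx (left_ne_zero_of_mul k)).trans_le
    ((φ x).monotone (hy (right_ne_zero_of_mul k))))

def MV.S (h : MV φ) : NonUnitalSubring D where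
  __ := h.A 0 1
  mul_mem' hx hy := h.mulA hx (fun k => (zero_lt_one.trans (hy k)).le) le_rfl

lemma MV.simple (h : MV φ) : IsSimpleRing h.S := by
  obtain ⟨x, hx, h1, -⟩ := h.tr zero_lt_one (show (2 : ℝ) < 3 by norm_num)
  have : Nontrivial h.S := ⟨⟨x, fun _ => by rw [h1]; norm_num⟩, 0, fun k => hx (congrArg (·.1) k)⟩
  refine ⟨⟨fun I => ?_⟩⟩
  by_cases k : ∀ y ∈ I, y = 0
  · exact .inl (eq_bot_iff.2 fun y hy => (TwoSidedIdeal.mem_bot _).2 (k y hy))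
  push Not at k
  obtain ⟨y, hy, y0⟩ := k
  have y0 : y.1 ≠ 0 := fun k => y0 (Subtype.ext k)
  refine .inr (eq_top_iff.2 fun z _ => ?_)
  by_cases z0 : z.1 = 0
  · rw [show z = 0 from Subtype.ext z0]; exact I.zero_mem
  have h2 : (φ z).symm 1 < 0 := by rw [OrderIso.symm_apply_lt]; exact z.2 z0
  have h3 : (φ y).symm 0 < 0 := by
    rw [OrderIso.symm_apply_lt]; exact zero_lt_one.trans (y.2 y0)
  obtain ⟨b, b0, h4, h5⟩ := h.tr h2 (show (φ y).symm 0 - 1 < 2 by linarith)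
  have hb : b ∈ h.S := fun _ => by rw [h5]; norm_num
  have ha : z.1 * b⁻¹ * y.1⁻¹ ∈ h.S := fun _ => by
    rw [h.ap (mul_ne_zero z0 (inv_ne_zero b0)) (inv_ne_zero y0), h.ap z0 (inv_ne_zero b0),
      ← OrderIso.symm_apply_lt, h.inv b0, h.inv y0, OrderIso.lt_symm_apply, h4]
    linarith
  have : z = ⟨_, ha⟩ * y * ⟨b, hb⟩ := Subtype.ext (by simp [y0, b0])
  rw [this]
  exact I.mul_mem_right _ _ (I.mul_mem_left _ _ hy)

lemma MV.idem (h : MV φ) (L : NonUnitalSubring h.S) (h0 : L ≠ ⊥)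
    (h1 : ∀ r x : h.S, x ∈ L → r * x ∈ L)
    (h2 : AddSubgroup.closure {z : h.S | ∃ a ∈ L, ∃ b ∈ L, z = a * b} = L.toAddSubgroup) :
    ∃ c, c ≤ 0 ∧ ∀ x : D, x ∈ h.A c 1 ↔ ∃ y ∈ L, y.1 = x := by
  let C : Set ℝ := {c | ∃ y ∈ L, y.1 ≠ 0 ∧ (φ y).symm 1 = c}
  have c1 : C.Nonempty := by
    by_contra k
    exact h0 (eq_bot_iff.2 fun y hy => NonUnitalSubring.mem_bot.2 (Subtype.ext
      (not_not.1 fun k' => k ⟨_, y, hy, k', rfl⟩)))
  have c2 : (0 : ℝ) ∈ upperBounds C := by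
    rintro _ ⟨y, -, y0, rfl⟩
    exact ((φ y).symm_apply_lt.2 (y.2 y0)).le
  have ind : ∀ (P : AddSubgroup D), (∀ a ∈ L, ∀ b ∈ L, a.1 * b.1 ∈ P) → ∀ y ∈ L, y.1 ∈ P :=
    fun P hP y hy => by
      have : L.toAddSubgroup ≤ P.comap (h.A 0 1).subtype := by
        rw [← h2, AddSubgroup.closure_le]
        rintro _ ⟨a, ha, b, hb, rfl⟩
        exact hP a ha b hb
      exact this hy
  refine ⟨sSup C, csSup_le c1 c2, fun x => ⟨fun hx => ?_, ?_⟩⟩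
  · by_cases x0 : x = 0
    · exact ⟨0, L.zero_mem, x0.symm⟩
    obtain ⟨_, ⟨y, hy, y0, rfl⟩, k⟩ := exists_lt_of_lt_csSup c1 ((φ x).symm_apply_lt.2 (hx x0))
    have hz : x * y.1⁻¹ ∈ h.A 1 1 := fun _ => by
      rwa [h.ap x0 (inv_ne_zero y0), h.inv y0, ← OrderIso.symm_apply_lt]
    have := ind ((L.toAddSubgroup.map (h.A 0 1).subtype).comap
      (AddMonoidHom.mulLeft (x * y.1⁻¹))) (fun a ha b hb =>
        ⟨⟨_, h.mulA hz (fun k => (a.2 k).le) le_rfl⟩ * b, h1 _ _ hb, mul_assoc _ _ _⟩) y hy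
    obtain ⟨w, h3, h4⟩ := this
    exact ⟨w, h3, by simpa [y0] using h4⟩
  · rintro ⟨y, hy, rfl⟩
    refine ind _ (fun a _ b hb => h.mulA a.2 (fun k => zero_le_one.trans ?_) le_rfl) y hy
    exact (φ b).symm_apply_le.1 (le_csSup ⟨0, c2⟩ ⟨b, hb, k, rfl⟩)

theorem final : ∃ (R : Type) (inst : NonUnitalRing R),
    IsSimpleRing R ∧ NoZeroDivisors R ∧
    (¬ ∃ e : R, (∀ x : R, e * x = x ∧ x * e = x) ∧
        ∀ x : R, x ≠ 0 → ∃ y : R, x * y = e ∧ y * x = e) ∧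
    ∀ L : NonUnitalSubring R, L ≠ ⊥ →
      (∀ r x : R, x ∈ L → r * x ∈ L) →
      AddSubgroup.closure {z : R | ∃ a ∈ L, ∃ b ∈ L, z = a * b} = L.toAddSubgroup →
      Nonempty (L ≃+* R) := by
  obtain ⟨D, _, φ, h⟩ := exD
  refine ⟨h.S, inferInstance, h.simple, ⟨fun {a b} k => ?_⟩, ?_, fun L h0 h1 h2 => ?_⟩
  · exact (mul_eq_zero.1 (congrArg (·.1) k)).imp Subtype.ext Subtype.ext
  · rintro ⟨e, h1, -⟩
    obtain ⟨x, hx, h2, -⟩ := h.tr zero_lt_one (show (2 : ℝ) < 3 by norm_num)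
    have h3 : e.1 = 1 := mul_right_cancel₀ hx
      ((congrArg (·.1) (h1 ⟨x, fun _ => by rw [h2]; norm_num⟩).1).trans (one_mul x).symm)
    have := e.2 (by simp [h3])
    rw [h3, h.one] at this
    exact absurd this (by simp)
  obtain ⟨c, hc, h3⟩ := h.idem L h0 h1 h2
  obtain ⟨u, u0, h4, h5⟩ := h.tr zero_lt_one (hc.trans_lt zero_lt_one)
  have k1 : ∀ x, u⁻¹ * x * u ∈ h.S ↔ x ∈ h.A c 1 := fun x => by
    by_cases x0 : x = 0
    · simp [x0]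
    have : 1 < φ (u⁻¹ * x * u) 0 ↔ 1 < φ x c := by
      rw [h.ap (mul_ne_zero (inv_ne_zero u0) x0) u0, h.ap (inv_ne_zero u0) x0, h4, h.inv u0,
        OrderIso.lt_symm_apply, h5]
    exact ⟨fun k _ => this.1 (k (by simp [u0, x0])), fun k _ => this.2 (k x0)⟩
  let f : L →ₙ+* h.S :=
    { toFun := fun y => ⟨u⁻¹ * y.1.1 * u, (k1 _).2 ((h3 _).2 ⟨y.1, y.2, rfl⟩)⟩
      map_mul' := fun a b => Subtype.ext (by simp [mul_assoc, u0])
      map_zero' := Subtype.ext (by simp)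
      map_add' := fun a b => Subtype.ext (by simp [mul_add, add_mul]) }
  refine ⟨RingEquiv.ofBijective f ⟨fun a b k => Subtype.ext (Subtype.ext ?_), fun z => ?_⟩⟩
  · have : u⁻¹ * a.1.1 * u = u⁻¹ * b.1.1 * u := congrArg Subtype.val k
    simpa [u0] using this
  · obtain ⟨y, hy, k⟩ := (h3 (u * z * u⁻¹)).1 ((k1 _).1 (by simp [mul_assoc, u0]))
    exact ⟨⟨y, hy⟩, Subtype.ext (show u⁻¹ * y.1 * u = z by simp [k, mul_assoc, u0])⟩

end Pool.Agent.H.MP_dd6327_al
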